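import Pool.Agent.Y883.En

set_option autoImplicit false

/-! A large set of moduli with many exceptional multiples has many members with a common divisor. -/

namespace Pool.Agent.Y883

open Finset
open Pool.Agent.TH935.GF (En)
open Pool.Agent.H560R3.GB (energy)

open Classical in
/-- the even multiples of `q` up to `N` without the property `P` -/
noncomputable def badm (P : ℕ → Prop) (N q : ℕ) : Finset ℕ :=
  (Icc 1 N).filter (fun n => 2 ∣ n ∧ q ∣ n ∧ ¬ P n)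

/-- almost all members of every family of even numbers of small energy have the property `P` -/
def BB (P : ℕ → Prop) : Prop := ∀ h B C U : ℕ, 1 ≤ h → ∃ N₀ : ℕ, ∀ N : ℕ, N₀ ≤ N → ∀ (x : ℕ) (s : ℕ → ℕ),
  (∀ m ∈ Icc 1 x, s m ≤ B * N ∧ 2 ∣ s m) →
  (energy h x s : ℝ) * N ≤ Real.log N ^ C * (x : ℝ) ^ (2 * h) →
  ∀ S : Finset ℕ, S ⊆ Icc 1 x → (∀ m ∈ S, ¬ P (s m)) → (S.card : ℝ) ≤ x / Real.log N ^ U

lemma lcm_two_cases (q : ℕ) : (2 ∣ q ∧ Nat.lcm 2 q = q) ∨ (¬ 2 ∣ q ∧ Nat.lcm 2 q = 2 * q) := by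
  by_cases h : 2 ∣ q
  · left
    exact ⟨h, Nat.lcm_eq_right h⟩
  · right
    refine ⟨h, ?_⟩
    have : Nat.Coprime 2 q := (Nat.Prime.coprime_iff_not_dvd Nat.prime_two).2 h
    exact Nat.Coprime.lcm_eq_mul this

lemma lcm_inj (Q : ℕ) (q q' : ℕ) (hq : Q ≤ q ∧ q < 2 * Q) (hq' : Q ≤ q' ∧ q' < 2 * Q)
    (h : Nat.lcm 2 q = Nat.lcm 2 q') : q = q' := by
  rcases lcm_two_cases q with ⟨h1, h2⟩ | ⟨h1, h2⟩ <;> rcases lcm_two_cases q' with ⟨h3, h4⟩ | ⟨h3, h4⟩ <;> omega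

/-- a divisor of `lcm 2 q` gives a divisor of `q` which is at least half as large -/
lemma half_dvd (d q : ℕ) (h : d ∣ Nat.lcm 2 q) : (if 2 ∣ d then d / 2 else d) ∣ q := by
  have h1 : d ∣ 2 * q := h.trans (Nat.lcm_dvd_mul 2 q)
  split_ifs with h2
  · obtain ⟨e, rfl⟩ := h2
    rw [Nat.mul_div_cancel_left e (by norm_num)]
    exact Nat.dvd_of_mul_dvd_mul_left (by norm_num) h1
  · have h3 : Nat.Coprime d 2 := ((Nat.Prime.coprime_iff_not_dvd Nat.prime_two).2 h2).symm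
    exact h3.dvd_of_dvd_mul_left h1

lemma tendsto_pow_log (c : ℝ) (a : ℝ) (ha : 0 < a) : ∃ N₀ : ℕ, ∀ N : ℕ, N₀ ≤ N → c ≤ (N : ℝ) ^ a := by
  have h1 : Filter.Tendsto (fun N : ℕ => (N : ℝ) ^ a) Filter.atTop Filter.atTop :=
    (tendsto_rpow_atTop ha).comp tendsto_natCast_atTop_atTop
  exact Filter.eventually_atTop.1 (h1.eventually_ge_atTop c)

theorem core2 (P : ℕ → Prop) (HP : BB P) (k A C : ℕ) (η ρ : ℝ) (hη : 4 ≤ η * (2 * k)) (hη1 : η ≤ 1)
    (hρ : 1 / ((k : ℝ) + 1) < ρ) :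
    ∃ N₀ : ℕ, ∀ N : ℕ, N₀ ≤ N → ∀ Q : ℕ, 1 ≤ Q → Q ≤ N → ∀ R : Finset ℕ,
      (∀ q ∈ R, Q ≤ q ∧ q < 2 * Q) →
      (∀ q ∈ R, (N : ℝ) / (q * Real.log N ^ A) < (badm P N q).card) →
      (Q : ℝ) ^ 2 * (N : ℝ) ^ ρ < R.card * N →
      ∃ d : ℕ, Real.log N ^ C < d ∧ R.card * (d : ℝ) ^ (-η) ≤ ((R.filter (fun q => d ∣ q)).card : ℝ) := by
  classical
  obtain ⟨N₁, h1⟩ := Pool.Agent.TH935.GF.transfer (k + 1) 4 (2 * C + 1) (A + 1) P (fun B C U =>
    HP (k + 1) B C U (by omega))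
  obtain ⟨N₂, h2⟩ := Pool.Agent.H373R2.T7.ev_L' (1 + 102 * (20 + 10 * 12 ^ (2 * k)))
  obtain ⟨N₃, h3⟩ := tendsto_pow_log 6720 (ρ - 1 / ((k : ℝ) + 1)) (by linarith)
  refine ⟨N₁ + N₂ + N₃ + 16, fun N hN Q hQ hQN' R hR hbad hRbig => ?_⟩
  by_contra hcon
  push Not at hcon
  have hL := h2 N (by omega)
  have hN3 := h3 N (by omega)
  obtain ⟨L, hLd⟩ : ∃ L, L = Real.log (N : ℝ) := ⟨_, rfl⟩
  have c1 := h1 N (by omega)
  rw [← hLd] at hL hcon c1
  simp only [← hLd] at hbad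
  have h12 : (1 : ℝ) ≤ 12 ^ (2 * k) := one_le_pow₀ (by norm_num)
  have hL20 : (20 : ℝ) ≤ L := by linarith
  have hL0 : 0 < L := by linarith
  have hk0 : (0 : ℝ) ≤ k := Nat.cast_nonneg _
  have hN16 : 16 ≤ N := by omega
  have hN0 : (0 : ℝ) < N := by exact_mod_cast (by omega : 0 < N)
  have hN16r : (16 : ℝ) ≤ N := by exact_mod_cast hN16
  obtain ⟨M, hM⟩ : ∃ M, M = N / Q := ⟨_, rfl⟩
  have hM1 : 1 ≤ M := by
    rw [hM]
    exact Nat.div_pos hQN' (by omega)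
  have hMN : M * Q ≤ N := by rw [hM]; exact Nat.div_mul_le_self _ _
  have hNM : N < (M + 1) * Q := by
    rw [hM]
    exact Nat.lt_mul_of_div_lt (Nat.lt_succ_self _) (by omega)
  have hNM2 : N ≤ 2 * M * Q := by nlinarith
  have hQ0 : (0 : ℝ) < Q := by exact_mod_cast hQ
  have hM0 : (0 : ℝ) < M := by exact_mod_cast hM1
  have hNM2r : (N : ℝ) ≤ 2 * M * Q := by exact_mod_cast hNM2
  have hRc : (0 : ℝ) < R.card := by
    have : 0 < (Q : ℝ) ^ 2 * (N : ℝ) ^ ρ := by positivity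
    have h4 : 0 < (R.card : ℝ) * N := this.trans hRbig
    exact pos_of_mul_pos_left h4 hN0.le
  have hRne : R.Nonempty := by
    rw [← card_pos]
    exact_mod_cast hRc
  -- the even moduli
  obtain ⟨S, hS⟩ : ∃ S : Finset ℕ, S = R.image (fun q => Nat.lcm 2 q) := ⟨_, rfl⟩
  have hSinj : Set.InjOn (fun q => Nat.lcm 2 q) (R : Set ℕ) := by
    intro q hq q' hq' h
    exact lcm_inj Q q q' (hR q hq) (hR q' hq') h
  have hScard : S.card = R.card := by rw [hS]; exact card_image_of_injOn hSinj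
  have hSne : S.Nonempty := by rw [hS]; exact hRne.image _
  have hSQ : ∀ s ∈ S, Q ≤ s ∧ s < 4 * Q := by
    intro s hs
    rw [hS, mem_image] at hs
    obtain ⟨q, hq, rfl⟩ := hs
    have := hR q hq
    rcases lcm_two_cases q with ⟨h4, h5⟩ | ⟨h4, h5⟩ <;> omega
  have hSmem : ∀ s ∈ S, ∃ q ∈ R, Nat.lcm 2 q = s := by
    intro s hs
    rw [hS, mem_image] at hs
    exact hs
  have hSeven : ∀ s ∈ S, 2 ∣ s := by
    intro s hs
    rw [hS, mem_image] at hs
    obtain ⟨q, hq, rfl⟩ := hs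
    exact Nat.dvd_lcm_left _ _
  obtain ⟨κ₀, hκ⟩ : ∃ κ₀ : ℝ, κ₀ = (N : ℝ) ^ (-(1 / (2 * ((k : ℝ) + 1)))) := ⟨_, rfl⟩
  have hκ0 : 0 < κ₀ := by rw [hκ]; positivity
  have hκh : N * κ₀ ^ (2 * (k + 1)) ≤ 1 := by
    rw [hκ, ← Real.rpow_natCast, ← Real.rpow_mul hN0.le]
    have e : -(1 / (2 * ((k : ℝ) + 1))) * ((2 * (k + 1) : ℕ) : ℝ) = -1 := by
      push_cast
      field_simp
    rw [e, Real.rpow_neg_one, mul_inv_cancel₀ hN0.ne']
  have hκN : 4 ≤ κ₀ * N := by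
    have e : κ₀ * N = (N : ℝ) ^ (1 - 1 / (2 * ((k : ℝ) + 1))) := by
      rw [hκ, Real.rpow_sub hN0, Real.rpow_one, Real.rpow_neg hN0.le, div_eq_mul_inv]
      ring
    rw [e]
    have h4 : 1 / (2 * ((k : ℝ) + 1)) ≤ 1 / 2 := by
      apply one_div_le_one_div_of_le (by norm_num)
      linarith
    calc (4 : ℝ) = (16 : ℝ) ^ (1 / 2 : ℝ) := by
          rw [← Real.sqrt_eq_rpow, show (16 : ℝ) = 4 ^ 2 by norm_num]
          rw [Real.sqrt_sq (by norm_num)]
      _ ≤ (N : ℝ) ^ (1 / 2 : ℝ) := Real.rpow_le_rpow (by norm_num) hN16r (by norm_num)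
      _ ≤ (N : ℝ) ^ (1 - 1 / (2 * ((k : ℝ) + 1))) :=
          Real.rpow_le_rpow_of_exponent_le (by linarith) (by linarith)
  have hbig : 3360 * (Q : ℝ) < S.card * M * κ₀ ^ 2 := by
    have e : κ₀ ^ 2 = (N : ℝ) ^ (-(1 / ((k : ℝ) + 1))) := by
      rw [hκ, ← Real.rpow_natCast, ← Real.rpow_mul hN0.le]
      congr 1
      push_cast
      field_simp
    rw [hScard, e]
    have h4 : 6720 * (N : ℝ) ^ (1 / ((k : ℝ) + 1)) ≤ (N : ℝ) ^ ρ := by
      calc 6720 * (N : ℝ) ^ (1 / ((k : ℝ) + 1)) ≤ (N : ℝ) ^ (ρ - 1 / ((k : ℝ) + 1)) * (N : ℝ) ^ (1 / ((k : ℝ) + 1)) :=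
            mul_le_mul_of_nonneg_right hN3 (by positivity)
        _ = (N : ℝ) ^ ρ := by rw [← Real.rpow_add hN0]; congr 1; ring
    have hpos : 0 < (N : ℝ) ^ (1 / ((k : ℝ) + 1)) := by positivity
    rw [Real.rpow_neg hN0.le, ← div_eq_mul_inv, lt_div_iff₀ hpos]
    have h5 : (3360 * (Q : ℝ) * (N : ℝ) ^ (1 / ((k : ℝ) + 1))) * (2 * Q) < (R.card * M) * (2 * Q) := by
      calc (3360 * (Q : ℝ) * (N : ℝ) ^ (1 / ((k : ℝ) + 1))) * (2 * Q) =
            (Q : ℝ) ^ 2 * (6720 * (N : ℝ) ^ (1 / ((k : ℝ) + 1))) := by ring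
        _ ≤ (Q : ℝ) ^ 2 * (N : ℝ) ^ ρ := mul_le_mul_of_nonneg_left h4 (by positivity)
        _ < R.card * N := hRbig
        _ ≤ R.card * (2 * M * Q) := mul_le_mul_of_nonneg_left hNM2r hRc.le
        _ = (R.card * M) * (2 * Q) := by ring
    exact lt_of_mul_lt_mul_right h5 (by positivity)
  have hη0 : 0 < η := by
    by_contra hc
    have : η * (2 * k) ≤ 0 := mul_nonpos_of_nonpos_of_nonneg (not_lt.1 hc) (by positivity)
    linarith
  have hgcd : ∀ d : ℕ, 2 * L ^ C < d → ((S.filter (fun s => d ∣ s)).card : ℝ) ≤ 2 * S.card * (d : ℝ) ^ (-η) := by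
    intro d hd
    obtain ⟨e, he⟩ : ∃ e, e = (if 2 ∣ d then d / 2 else d) := ⟨_, rfl⟩
    have hLC : 0 < L ^ C := by positivity
    have hd0 : (0 : ℝ) < d := by linarith
    have he2 : (d : ℝ) ≤ 2 * e := by
      have : d ≤ 2 * e := by
        rw [he]
        split_ifs with h4 <;> omega
      exact_mod_cast this
    have heL : L ^ C < e := by linarith
    have he0 : (0 : ℝ) < e := by linarith
    have h4 := hcon e heL
    have h5 : (S.filter (fun s => d ∣ s)).card ≤ (R.filter (fun q => e ∣ q)).card := by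
      have h6 : S.filter (fun s => d ∣ s) ⊆ (R.filter (fun q => e ∣ q)).image (fun q => Nat.lcm 2 q) := by
        intro s hs
        rw [mem_filter, hS, mem_image] at hs
        obtain ⟨⟨q, hq, rfl⟩, hds⟩ := hs
        rw [mem_image]
        refine ⟨q, mem_filter.2 ⟨hq, ?_⟩, rfl⟩
        rw [he]
        exact half_dvd d q hds
      exact (card_le_card h6).trans card_image_le
    have h6 : ((S.filter (fun s => d ∣ s)).card : ℝ) ≤ (R.filter (fun q => e ∣ q)).card := by exact_mod_cast h5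
    refine h6.trans (h4.le.trans ?_)
    rw [hScard]
    have h7 : (e : ℝ) ^ (-η) ≤ 2 * (d : ℝ) ^ (-η) := by
      calc (e : ℝ) ^ (-η) ≤ ((d : ℝ) / 2) ^ (-η) :=
            Real.rpow_le_rpow_of_nonpos (by positivity) (by linarith) (by linarith)
        _ = (d : ℝ) ^ (-η) * 2 ^ η := by
            rw [Real.div_rpow hd0.le (by norm_num), Real.rpow_neg (by norm_num : (0:ℝ) ≤ 2), div_inv_eq_mul]
        _ ≤ (d : ℝ) ^ (-η) * 2 ^ (1 : ℝ) := by
            apply mul_le_mul_of_nonneg_left _ (by positivity)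
            exact Real.rpow_le_rpow_of_exponent_le (by norm_num) hη1
        _ = 2 * (d : ℝ) ^ (-η) := by rw [Real.rpow_one]; ring
    calc (R.card : ℝ) * (e : ℝ) ^ (-η) ≤ R.card * (2 * (d : ℝ) ^ (-η)) :=
          mul_le_mul_of_nonneg_left h7 hRc.le
      _ = 2 * R.card * (d : ℝ) ^ (-η) := by ring
  have hLC1 : 1 ≤ L ^ C := one_le_pow₀ (by linarith)
  have hen := energy_mod k N Q M (by omega) hQ hM1 hNM2 η (2 * L ^ C) κ₀ hη (by linarith) hκ0 hκN hκh S hSQ hSne hbig hgcd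
  obtain ⟨v, hv⟩ : ∃ v, v = fam S M := ⟨_, rfl⟩
  rw [← hv] at hen
  have hcard : (Fintype.card ({x // x ∈ S} × Fin M) : ℝ) = S.card * M := by
    rw [Fintype.card_prod, Fintype.card_coe, Fintype.card_fin]
    push_cast
    ring
  have hv4 : ∀ i, v i ≤ ((4 : ℕ) : ℤ) * N := by
    intro i
    have a1 := hSQ i.1 i.1.2
    have hi : (i.2 : ℕ) + 1 ≤ M := i.2.2
    have h3 : (i.1 : ℕ) * ((i.2 : ℕ) + 1) ≤ 4 * N :=
      calc (i.1 : ℕ) * ((i.2 : ℕ) + 1) ≤ 4 * Q * M := Nat.mul_le_mul a1.2.le hi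
        _ = 4 * (M * Q) := by ring
        _ ≤ 4 * N := Nat.mul_le_mul_left _ hMN
    rw [hv]
    unfold fam
    exact_mod_cast h3
  have hEn : (En (k + 1) v : ℝ) * N ≤ L ^ (2 * C + 1) * (Fintype.card ({x // x ∈ S} × Fin M) : ℝ) ^ (2 * (k + 1)) := by
    rw [hcard]
    refine hen.trans ?_
    rw [mul_comm]
    apply mul_le_mul_of_nonneg_right _ (by positivity)
    have hLC2 : 1 ≤ L ^ (2 * C) := one_le_pow₀ (by linarith)
    calc 1 + 102 * (5 * (2 * L ^ C) ^ 2 + 10 * 12 ^ (2 * k)) =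
          1 + 102 * (20 * L ^ (2 * C) + 10 * 12 ^ (2 * k)) := by ring
      _ ≤ (1 + 102 * (20 + 10 * 12 ^ (2 * k))) * L ^ (2 * C) := by nlinarith
      _ ≤ L * L ^ (2 * C) := mul_le_mul_of_nonneg_right hL (by positivity)
      _ = L ^ (2 * C + 1) := by rw [pow_succ]; ring
  obtain ⟨W, hW⟩ : ∃ W : Finset ({x // x ∈ S} × Fin M), W = univ.filter (fun i => ¬ P (v i).toNat) :=
    ⟨_, rfl⟩
  have hWle := c1 _ v hv4 hEn W (by
    intro i hi
    rw [hW, mem_filter] at hi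
    have a1 := hSQ i.1 i.1.2
    have a2 := hSeven i.1 i.1.2
    refine ⟨?_, ?_, hi.2⟩
    · rw [hv]
      unfold fam
      have : (0 : ℤ) < ((i.1 : ℕ) : ℤ) := by exact_mod_cast (by omega : 0 < (i.1 : ℕ))
      positivity
    · rw [hv]
      unfold fam
      apply Even.mul_right
      have h3 : Even (i.1 : ℕ) := even_iff_two_dvd.2 a2
      exact_mod_cast h3)
  rw [hcard] at hWle
  -- lower bound
  have hlow : ∀ s : {x // x ∈ S}, (M : ℝ) / (2 * L ^ A) < ((W.filter (fun i => i.1 = s)).card : ℝ) := by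
    intro s
    obtain ⟨q, hqR, hqs⟩ := hSmem s s.2
    have hq := hR q hqR
    have a1 := hSQ s s.2
    have hs0 : 0 < (s : ℕ) := by omega
    have h3 : (badm P N q).card ≤ (W.filter (fun i => i.1 = s)).card := by
      have hdiv : ∀ n ∈ badm P N q, (s : ℕ) ∣ n ∧ 0 < n / (s : ℕ) ∧ n / (s : ℕ) ≤ M := by
        intro n hn
        unfold badm at hn
        rw [mem_filter, mem_Icc] at hn
        have h4 : (s : ℕ) ∣ n := by rw [← hqs]; exact Nat.lcm_dvd hn.2.1 hn.2.2.1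
        refine ⟨h4, Nat.div_pos (Nat.le_of_dvd (by omega) h4) hs0, ?_⟩
        calc n / (s : ℕ) ≤ N / (s : ℕ) := Nat.div_le_div_right hn.1.2
          _ ≤ N / Q := Nat.div_le_div_left a1.1 (by omega)
          _ = M := hM.symm
      apply card_le_card_of_injOn (fun n => (s, if h : n / (s : ℕ) - 1 < M then
        (⟨n / (s : ℕ) - 1, h⟩ : Fin M) else ⟨0, hM1⟩))
      · intro n hn
        rw [mem_coe] at hn
        obtain ⟨b1, b2, b3⟩ := hdiv n hn
        have hlt : n / (s : ℕ) - 1 < M := by omega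
        rw [mem_coe, mem_filter, hW, mem_filter]
        refine ⟨⟨mem_univ _, ?_⟩, rfl⟩
        have hval : (v (s, if h : n / (s : ℕ) - 1 < M then
            (⟨n / (s : ℕ) - 1, h⟩ : Fin M) else ⟨0, hM1⟩)).toNat = n := by
          rw [dif_pos hlt, hv]
          have h4 : (s : ℕ) * (n / (s : ℕ) - 1 + 1) = n := by
            rw [Nat.sub_add_cancel b2]
            exact Nat.mul_div_cancel' b1
          have h5 : (((s : ℕ) : ℤ) * (((n / (s : ℕ) - 1 : ℕ) : ℤ) + 1)) = (n : ℤ) := by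
            exact_mod_cast h4
          change (((s : ℕ) : ℤ) * (((n / (s : ℕ) - 1 : ℕ) : ℤ) + 1)).toNat = n
          rw [h5]
          exact Int.toNat_natCast n
        rw [hval]
        unfold badm at hn
        rw [mem_filter] at hn
        exact hn.2.2.2
      · intro n hn n' hn' hnn
        rw [mem_coe] at hn hn'
        obtain ⟨b1, b2, b3⟩ := hdiv n hn
        obtain ⟨b1', b2', b3'⟩ := hdiv n' hn'
        have hlt : n / (s : ℕ) - 1 < M := by omega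
        have hlt' : n' / (s : ℕ) - 1 < M := by omega
        simp only [Prod.mk.injEq, true_and] at hnn
        rw [dif_pos hlt, dif_pos hlt', Fin.mk.injEq] at hnn
        have h4 : n / (s : ℕ) = n' / (s : ℕ) := by omega
        rw [← Nat.div_mul_cancel b1, ← Nat.div_mul_cancel b1', h4]
    have h4 : ((badm P N q).card : ℝ) ≤ ((W.filter (fun i => i.1 = s)).card : ℝ) := by exact_mod_cast h3
    have h6 := hbad q hqR
    have hq0 : (0 : ℝ) < q := by exact_mod_cast (by omega : 0 < q)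
    have h7 : (M : ℝ) / (2 * L ^ A) ≤ (N : ℝ) / (q * L ^ A) := by
      rw [div_le_div_iff₀ (by positivity) (by positivity)]
      have h8 : (M : ℝ) * q ≤ N * 2 := by
        have h9 : M * q ≤ N * 2 := by
          calc M * q ≤ M * (2 * Q) := Nat.mul_le_mul_left _ hq.2.le
            _ = M * Q * 2 := by ring
            _ ≤ N * 2 := Nat.mul_le_mul_right _ hMN
        exact_mod_cast h9
      calc (M : ℝ) * (q * L ^ A) = (M * q) * L ^ A := by ring
        _ ≤ (N * 2) * L ^ A := mul_le_mul_of_nonneg_right h8 (by positivity)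
        _ = N * (2 * L ^ A) := by ring
    linarith
  have hSc : (0 : ℝ) < S.card := by rw [hScard]; exact hRc
  have hWsum : (W.card : ℝ) = ∑ s : {x // x ∈ S}, ((W.filter (fun i => i.1 = s)).card : ℝ) := by
    have h3 : W.card = ∑ s ∈ (univ : Finset {x // x ∈ S}), (W.filter (fun i => i.1 = s)).card :=
      card_eq_sum_card_fiberwise (fun q _ => mem_coe.2 (mem_univ _))
    rw [h3]
    push_cast
    rfl
  have hWlow : (S.card : ℝ) * ((M : ℝ) / (2 * L ^ A)) ≤ W.card := by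
    rw [hWsum]
    calc (S.card : ℝ) * ((M : ℝ) / (2 * L ^ A)) = ∑ _s : {x // x ∈ S}, (M : ℝ) / (2 * L ^ A) := by
          rw [sum_const, card_univ, Fintype.card_coe, nsmul_eq_mul]
      _ ≤ _ := sum_le_sum fun q _ => (hlow q).le
  have h9 : (S.card : ℝ) * ((M : ℝ) / (2 * L ^ A)) ≤ S.card * M / L ^ (A + 1) := hWlow.trans hWle
  rw [mul_div_assoc] at h9
  have h10 : (M : ℝ) / (2 * L ^ A) ≤ M / L ^ (A + 1) := le_of_mul_le_mul_left h9 hSc
  rw [div_le_div_iff₀ (by positivity) (by positivity)] at h10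
  have h11 : L ^ (A + 1) ≤ 2 * L ^ A := le_of_mul_le_mul_left h10 hM0
  rw [pow_succ, mul_comm (2 : ℝ)] at h11
  have h12 : L ≤ 2 := le_of_mul_le_mul_left h11 (by positivity)
  linarith

end Pool.Agent.Y883
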