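import Pool.Agent.Y883.Spec
import Pool.Agent.H373R2.T7.BilF
import Pool.Agent.TH935.GF2
import Pool.Agent.TH786.GM.Struct

set_option autoImplicit false

/-! The additive energy of the family of the multiples of the members of a large set of integers. -/

namespace Pool.Agent.Y883

open Finset
open Pool.Agent.H807R2.Dav
open Pool.Agent.TH935.GF (En)

/-- the energy is bounded by an even moment over any modulus -/
lemma en_le (h : ℕ) {ι : Type} [Fintype ι] (v : ι → ℤ) (N : ℕ) (hN : 1 ≤ N) :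
    (N : ℝ) * En h v ≤ ∑ t ∈ range N, ‖∑ i, ee ((t : ℝ) * ((v i : ℝ) / N))‖ ^ (2 * h) := by
  classical
  have h1 : ∀ t : ℕ, (∑ i, ee ((t : ℝ) * ((v i : ℝ) / N))) ^ h =
      ∑ w : Fin h → ι, ee ((t : ℝ) * (((∑ j, v (w j) : ℤ) : ℝ) / N)) := by
    intro t
    have e1 : (∑ i, ee ((t : ℝ) * ((v i : ℝ) / N))) ^ h =
        ∏ _j : Fin h, ∑ i, ee ((t : ℝ) * ((v i : ℝ) / N)) := by
      rw [prod_const, card_univ, Fintype.card_fin]
    rw [e1, prod_univ_sum, Fintype.piFinset_univ]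
    apply sum_congr rfl
    intro w _
    have h2 : ∀ (J : Finset (Fin h)), ∏ j ∈ J, ee ((t : ℝ) * ((v (w j) : ℝ) / N)) =
        ee ((t : ℝ) * (((∑ j ∈ J, v (w j) : ℤ) : ℝ) / N)) := by
      intro J
      induction J using Finset.induction_on with
      | empty => simp [ee_zero]
      | insert a J ha ih =>
        rw [prod_insert ha, sum_insert ha, ih, ← ee_add]
        congr 1
        push_cast
        ring
    exact h2 univ
  have h2 : ∀ t : ℕ, ‖∑ i, ee ((t : ℝ) * ((v i : ℝ) / N))‖ ^ (2 * h) =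
      ‖∑ w : Fin h → ι, ee ((t : ℝ) * (((∑ j, v (w j) : ℤ) : ℝ) / N))‖ ^ 2 := by
    intro t
    rw [← h1, norm_pow, ← pow_mul, mul_comm 2 h]
  rw [sum_congr rfl fun t _ => h2 t]
  have h3 := Pool.Agent.H373R2.T7.sq_expand (univ : Finset (Fin h → ι)) (fun _ => 1)
    (fun w => ∑ j, v (w j)) N hN
  simp only [one_mul, map_one] at h3
  have h4 : ∑ t ∈ range N, ‖∑ w : Fin h → ι, ee ((t : ℝ) * (((∑ j, v (w j) : ℤ) : ℝ) / N))‖ ^ 2 =
      ∑ w : Fin h → ι, ∑ w' : Fin h → ι, (if (N : ℤ) ∣ ∑ j, v (w j) - ∑ j, v (w' j) then (N : ℝ) else 0) := by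
    have h5 : (((∑ t ∈ range N, ‖∑ w : Fin h → ι, ee ((t : ℝ) * (((∑ j, v (w j) : ℤ) : ℝ) / N))‖ ^ 2 : ℝ)) : ℂ) =
        ((∑ w : Fin h → ι, ∑ w' : Fin h → ι,
          (if (N : ℤ) ∣ ∑ j, v (w j) - ∑ j, v (w' j) then (N : ℝ) else 0) : ℝ) : ℂ) := by
      rw [h3]
      push_cast
      apply sum_congr rfl
      intro i _
      apply sum_congr rfl
      intro j _
      split_ifs <;> simp
    exact_mod_cast h5
  rw [h4]
  have h5 : (En h v : ℝ) = ∑ w : Fin h → ι, ∑ w' : Fin h → ι,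
      (if ∑ j, v (w j) = ∑ j, v (w' j) then (1 : ℝ) else 0) := by
    unfold En
    rw [Nat.card_eq_fintype_card, Fintype.card_subtype, ← Finset.univ_product_univ, card_filter, sum_product]
    push_cast
    rfl
  rw [h5, mul_sum]
  apply sum_le_sum
  intro w _
  rw [mul_sum]
  apply sum_le_sum
  intro w' _
  by_cases h6 : ∑ j, v (w j) = ∑ j, v (w' j)
  · rw [if_pos h6, if_pos (by rw [h6, sub_self]; exact dvd_zero _), mul_one]
  · rw [if_neg h6, mul_zero]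
    split_ifs <;> positivity

lemma sum_inv_one_add_sq (Z : ℕ) : ∑ j ∈ range Z, 1 / (1 + (j : ℝ) ^ 2) ≤ 3 := by
  have h1 : ∀ n : ℕ, ∑ j ∈ range (n + 1), 1 / (1 + (j : ℝ) ^ 2) ≤ 3 - 2 / (2 * (n : ℝ) + 1) := by
    intro n
    induction n with
    | zero => simp; norm_num
    | succ n ih =>
      rw [sum_range_succ]
      push_cast
      have h2 : 1 / (1 + ((n : ℝ) + 1) ^ 2) ≤ 2 / (2 * (n : ℝ) + 1) - 2 / (2 * ((n : ℝ) + 1) + 1) := by
        have hn : (0 : ℝ) ≤ n := Nat.cast_nonneg _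
        have e : 2 / (2 * (n : ℝ) + 1) - 2 / (2 * ((n : ℝ) + 1) + 1) =
            4 / ((2 * (n : ℝ) + 1) * (2 * ((n : ℝ) + 1) + 1)) := by
          field_simp
          ring
        rw [e, div_le_div_iff₀ (by positivity) (by positivity)]
        nlinarith
      linarith
  rcases Z with _ | n
  · simp
  · have h2 := h1 n
    have h3 : 0 ≤ 2 / (2 * (n : ℝ) + 1) := by positivity
    linarith

lemma sum_dist (N : ℕ) (τ : ℝ) : ∑ t ∈ range N, 1 / (1 + ((t : ℝ) - τ) ^ 2) ≤ 6 := by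
  classical
  set n : ℤ := ⌊τ⌋ with hn
  have hn1 : (n : ℝ) ≤ τ := Int.floor_le τ
  have hn2 : τ < n + 1 := Int.lt_floor_add_one τ
  rw [← sum_filter_add_sum_filter_not (range N) (fun t : ℕ => (t : ℤ) ≤ n)]
  have hmono : ∀ (x y : ℝ), 0 ≤ x → x ≤ |y| → 1 / (1 + y ^ 2) ≤ 1 / (1 + x ^ 2) := by
    intro x y hx hxy
    apply one_div_le_one_div_of_le (by positivity)
    have : x ^ 2 ≤ |y| ^ 2 := pow_le_pow_left₀ hx hxy 2
    rw [sq_abs] at this
    linarith
  have hA : ∑ t ∈ (range N).filter (fun t : ℕ => (t : ℤ) ≤ n), 1 / (1 + ((t : ℝ) - τ) ^ 2) ≤ 3 := by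
    have h1 : ∑ t ∈ (range N).filter (fun t : ℕ => (t : ℤ) ≤ n), 1 / (1 + ((t : ℝ) - τ) ^ 2) ≤
        ∑ t ∈ (range N).filter (fun t : ℕ => (t : ℤ) ≤ n), 1 / (1 + (((n - t).toNat : ℕ) : ℝ) ^ 2) := by
      apply sum_le_sum
      intro t ht
      rw [mem_filter] at ht
      apply hmono _ _ (Nat.cast_nonneg _)
      have e1 : (((n - t).toNat : ℕ) : ℝ) = (n : ℝ) - t := by
        rw [← Int.cast_natCast (R := ℝ), Int.toNat_of_nonneg (by omega)]
        push_cast; rfl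
      rw [e1, abs_sub_comm]
      refine le_trans ?_ (le_abs_self _)
      linarith
    refine h1.trans ?_
    have h2 : ∑ t ∈ (range N).filter (fun t : ℕ => (t : ℤ) ≤ n), 1 / (1 + (((n - t).toNat : ℕ) : ℝ) ^ 2) =
        ∑ j ∈ ((range N).filter (fun t : ℕ => (t : ℤ) ≤ n)).image (fun t : ℕ => (n - t).toNat),
          1 / (1 + (j : ℝ) ^ 2) := by
      rw [sum_image]
      intro t ht t' ht' h
      rw [mem_coe, mem_filter] at ht ht'
      simp only at h
      omega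
    rw [h2]
    refine le_trans ?_ (sum_inv_one_add_sq (n.toNat + 1))
    apply sum_le_sum_of_subset_of_nonneg
    · intro j hj
      obtain ⟨t, ht, rfl⟩ := mem_image.1 hj
      rw [mem_filter] at ht
      rw [mem_range]
      omega
    · intro j _ _
      positivity
  have hB : ∑ t ∈ (range N).filter (fun t : ℕ => ¬ (t : ℤ) ≤ n), 1 / (1 + ((t : ℝ) - τ) ^ 2) ≤ 3 := by
    have h1 : ∑ t ∈ (range N).filter (fun t : ℕ => ¬ (t : ℤ) ≤ n), 1 / (1 + ((t : ℝ) - τ) ^ 2) ≤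
        ∑ t ∈ (range N).filter (fun t : ℕ => ¬ (t : ℤ) ≤ n), 1 / (1 + (((t - n - 1).toNat : ℕ) : ℝ) ^ 2) := by
      apply sum_le_sum
      intro t ht
      rw [mem_filter] at ht
      apply hmono _ _ (Nat.cast_nonneg _)
      have e1 : ((((t : ℤ) - n - 1).toNat : ℕ) : ℝ) = (t : ℝ) - n - 1 := by
        rw [← Int.cast_natCast (R := ℝ), Int.toNat_of_nonneg (by omega)]
        push_cast; rfl
      rw [e1]
      refine le_trans ?_ (le_abs_self _)
      linarith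
    refine h1.trans ?_
    have h2 : ∑ t ∈ (range N).filter (fun t : ℕ => ¬ (t : ℤ) ≤ n), 1 / (1 + (((t - n - 1).toNat : ℕ) : ℝ) ^ 2) =
        ∑ j ∈ ((range N).filter (fun t : ℕ => ¬ (t : ℤ) ≤ n)).image (fun t : ℕ => ((t : ℤ) - n - 1).toNat),
          1 / (1 + (j : ℝ) ^ 2) := by
      rw [sum_image]
      intro t ht t' ht' h
      rw [mem_coe, mem_filter] at ht ht'
      simp only at h
      omega
    rw [h2]
    refine le_trans ?_ (sum_inv_one_add_sq (N + n.natAbs + 1))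
    apply sum_le_sum_of_subset_of_nonneg
    · intro j hj
      obtain ⟨t, ht, rfl⟩ := mem_image.1 hj
      rw [mem_filter, mem_range] at ht
      rw [mem_range]
      omega
    · intro j _ _
      positivity
  linarith

lemma dd_round (x : ℝ) : 4 * |x - round x| ≤ dd x := by
  rw [abs_sub_round_eq_min]
  have h1 := dd_ge (Int.fract_nonneg x) (Int.fract_lt_one x).le
  have h2 : dd (Int.fract x) = dd x := by
    have : x = Int.fract x + (⌊x⌋ : ℤ) := (Int.fract_add_floor x).symm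
    conv_rhs => rw [this]
    rw [dd_add_int]
  rw [← h2]
  exact h1

/-- the exponential sum over the multiples -/
noncomputable def KS (S : Finset ℕ) (M : ℕ) (α : ℝ) : ℂ :=
  ∑ s ∈ S, ∑ i ∈ Ico 1 (M + 1), ee ((i : ℝ) * (s * α))

lemma KS_le (S : Finset ℕ) (M : ℕ) (α : ℝ) : ‖KS S M α‖ ≤ ∑ s ∈ S, KK M (s * α) := by
  unfold KS
  refine (norm_sum_le _ _).trans (sum_le_sum fun s _ => ?_)
  apply geo_bound _ _ (by omega)
  push_cast
  linarith

lemma KS_triv (S : Finset ℕ) (M : ℕ) (α : ℝ) : ‖KS S M α‖ ≤ S.card * M := by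
  unfold KS
  refine (norm_sum_le _ _).trans ?_
  rw [← nsmul_eq_mul]
  apply sum_le_card_nsmul
  intro s _
  refine (norm_sum_le _ _).trans ?_
  simp only [norm_ee, sum_const, Nat.card_Ico, nsmul_eq_mul, mul_one]
  push_cast
  simp

/-- at a point where the exponential sum is large there is a good rational approximation -/
lemma large (Q M : ℕ) (hQ : 1 ≤ Q) (hM : 1 ≤ M) (S : Finset ℕ) (hS : ∀ s ∈ S, Q ≤ s ∧ s < 4 * Q)
    (hne : S.Nonempty) (α κ : ℝ) (hκ : 0 < κ) (hK : κ * (S.card * M) ≤ ‖KS S M α‖)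
    (hbig : 3360 * Q < S.card * M * κ ^ 2) :
    ∃ q : ℚ, q.den ≤ 16 * Q ∧ κ / 6 * S.card ≤ ((S.filter (fun s => q.den ∣ s)).card : ℝ) ∧
      κ * (M * Q) * |α - q| ≤ 2 := by
  classical
  have hQ0 : (0 : ℝ) < Q := by exact_mod_cast hQ
  have hM0 : (0 : ℝ) < M := by exact_mod_cast hM
  have hc0 : (0 : ℝ) < S.card := by exact_mod_cast hne.card_pos
  set T : ℝ := 2 / κ with hT
  have hT0 : 0 < T := by positivity
  set F : Finset ℕ := S.filter (fun s : ℕ => |α * s - round (α * s)| ≤ T / M) with hF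
  have hFS : F ⊆ S := filter_subset _ _
  -- the number of members of `F`
  have h1 : ‖KS S M α‖ ≤ 3 * M * F.card + (3 * (M * κ) / 8) * S.card := by
    refine (KS_le S M α).trans ?_
    rw [← sum_filter_add_sum_filter_not S (fun s : ℕ => |α * s - round (α * s)| ≤ T / M)]
    apply add_le_add
    · calc ∑ s ∈ F, KK M (s * α) ≤ ∑ _s ∈ F, 3 * (M : ℝ) := sum_le_sum fun s _ => KK_le hM0.le _
        _ = 3 * M * F.card := by rw [sum_const, nsmul_eq_mul]; ring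
    · calc ∑ s ∈ S.filter (fun s : ℕ => ¬ |α * s - round (α * s)| ≤ T / M), KK M (s * α)
          ≤ ∑ _s ∈ S.filter (fun s : ℕ => ¬ |α * s - round (α * s)| ≤ T / M), (3 * (M * κ) / 8) := by
            apply sum_le_sum
            intro s hs
            rw [mem_filter, not_le] at hs
            have h2 : 4 * (T / M) ≤ dd (s * α) := by
              have h3 := dd_round (α * s)
              rw [mul_comm (s : ℝ) α]
              linarith [hs.2]
            refine (KK_le' hM0.le (by positivity) h2).trans (le_of_eq ?_)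
            rw [hT]
            field_simp
            norm_num
        _ ≤ (3 * (M * κ) / 8) * S.card := by
            rw [sum_const, nsmul_eq_mul, mul_comm]
            apply mul_le_mul_of_nonneg_left _ (by positivity)
            exact_mod_cast card_filter_le _ _
  have h2 : κ / 6 * S.card ≤ F.card := by
    have h3 : κ * (S.card * M) ≤ 3 * M * F.card + (3 * (M * κ) / 8) * S.card := hK.trans h1
    have h4 : (κ / 6 * S.card) * (3 * M) ≤ F.card * (3 * M) := by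
      have h5 : 0 ≤ κ * S.card * M := by positivity
      nlinarith
    exact le_of_mul_le_mul_right h4 (by positivity)
  obtain ⟨q, hq1, hq2⟩ := spec Q M hQ hM T hT0 α F (by
    intro s hs
    rw [hF, mem_filter] at hs
    exact ⟨(hS s hs.1).2, hs.2⟩) (by
    refine lt_of_lt_of_le ?_ h2
    rw [div_lt_iff₀ hM0, hT, ← mul_div_assoc, div_lt_iff₀ hκ]
    nlinarith)
  refine ⟨q, hq1, h2.trans ?_, ?_⟩
  · have h3 : F ⊆ S.filter (fun s => q.den ∣ s) := by
      intro s hs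
      rw [mem_filter]
      exact ⟨hFS hs, (hq2 s hs).1⟩
    exact_mod_cast card_le_card h3
  · have h3 : 0 < F.card := by
      have : (0 : ℝ) < F.card := lt_of_lt_of_le (by positivity) h2
      exact_mod_cast this
    obtain ⟨s, hs⟩ := card_pos.1 h3
    have h4 := (hq2 s hs).2
    have h5 : (Q : ℝ) ≤ s := by exact_mod_cast (hS s (hFS hs)).1
    have h6 : |α - q| * Q ≤ T / M := (mul_le_mul_of_nonneg_left h5 (abs_nonneg _)).trans h4
    rw [le_div_iff₀ hM0] at h6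
    have h7 : κ * T = 2 := by rw [hT]; field_simp
    calc κ * (M * Q) * |α - q| = κ * (|α - q| * Q * M) := by ring
      _ ≤ κ * T := mul_le_mul_of_nonneg_left h6 hκ.le
      _ = 2 := h7

/-- weights of the rational numbers -/
noncomputable def cw (k : ℕ) (Y : ℝ) (r : ℕ) : ℝ := if (r : ℝ) ≤ Y then 1 else 12 ^ (2 * k) / (r : ℝ) ^ 4

lemma cw_nonneg (k : ℕ) (Y : ℝ) (r : ℕ) : 0 ≤ cw k Y r := by
  unfold cw
  split_ifs <;> positivity

/-- the bound at one point -/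
lemma point (k N Q M : ℕ) (hN : 1 ≤ N) (hQ : 1 ≤ Q) (hM : 1 ≤ M) (hNQ : N ≤ 2 * M * Q)
    (η Y κ₀ : ℝ) (hη : 4 ≤ η * (2 * k)) (hκ0 : 0 < κ₀) (hκN : 4 ≤ κ₀ * N)
    (S : Finset ℕ) (hS : ∀ s ∈ S, Q ≤ s ∧ s < 4 * Q) (hne : S.Nonempty)
    (hbig : 3360 * Q < S.card * M * κ₀ ^ 2)
    (hgcd : ∀ d : ℕ, Y < d → ((S.filter (fun s => d ∣ s)).card : ℝ) ≤ 2 * S.card * (d : ℝ) ^ (-η))
    (t : ℕ) (ht : t < N) :
    (‖KS S M (t / N)‖ / (S.card * M)) ^ (2 * (k + 1)) ≤ κ₀ ^ (2 * (k + 1)) +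
      ∑ r ∈ Icc 1 (16 * Q), ∑ a ∈ Icc (-2 * (r : ℤ)) (2 * r), cw k Y r *
        (17 / (1 + ((t : ℝ) - N * ((a : ℝ) / r)) ^ 2)) := by
  classical
  have hQ0 : (0 : ℝ) < Q := by exact_mod_cast hQ
  have hM0 : (0 : ℝ) < M := by exact_mod_cast hM
  have hN0 : (0 : ℝ) < N := by exact_mod_cast hN
  have hc0 : (0 : ℝ) < S.card := by exact_mod_cast hne.card_pos
  set κ : ℝ := ‖KS S M (t / N)‖ / (S.card * M) with hκ
  have hκnn : 0 ≤ κ := by positivity
  have hκ1 : κ ≤ 1 := by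
    rw [hκ, div_le_one (by positivity)]
    exact KS_triv S M _
  have hterm : ∀ r ∈ Icc 1 (16 * Q), ∀ a ∈ Icc (-2 * (r : ℤ)) (2 * r), 0 ≤ cw k Y r *
        (17 / (1 + ((t : ℝ) - N * ((a : ℝ) / r)) ^ 2)) := by
    intro r _ a _
    have := cw_nonneg k Y r
    positivity
  rcases le_or_gt κ κ₀ with hle | hgt
  · have h1 : κ ^ (2 * (k + 1)) ≤ κ₀ ^ (2 * (k + 1)) := pow_le_pow_left₀ hκnn hle _
    have h2 := sum_nonneg fun r hr => sum_nonneg fun a ha => hterm r hr a ha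
    linarith
  have hκpos : 0 < κ := hκ0.trans hgt
  obtain ⟨q, hq1, hq2, hq3⟩ := large Q M hQ hM S hS hne (t / N) κ hκpos (by
    rw [hκ, div_mul_cancel₀]
    positivity) (by
    refine hbig.trans_le ?_
    apply mul_le_mul_of_nonneg_left _ (by positivity)
    exact pow_le_pow_left₀ hκ0.le hgt.le 2)
  set r := q.den with hr
  have hr0 : 0 < r := q.den_pos
  have hrr : (0 : ℝ) < r := by exact_mod_cast hr0
  have hr1 : (1 : ℝ) ≤ r := by exact_mod_cast hr0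
  have hqr : (q : ℝ) = (q.num : ℝ) / r := by rw [hr]; exact Rat.cast_def q
  have hNQr : (N : ℝ) ≤ 2 * M * Q := by exact_mod_cast hNQ
  have hdist : κ * |(t : ℝ) - N * q| ≤ 4 := by
    have e : (t : ℝ) - N * q = N * ((t : ℝ) / N - q) := by field_simp
    rw [e, abs_mul, abs_of_pos hN0]
    have h5 : 0 ≤ κ * |(t : ℝ) / N - q| := by positivity
    calc κ * (N * |(t : ℝ) / N - q|) = N * (κ * |(t : ℝ) / N - q|) := by ring
      _ ≤ (2 * M * Q) * (κ * |(t : ℝ) / N - q|) := mul_le_mul_of_nonneg_right hNQr h5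
      _ = 2 * (κ * (M * Q) * |(t : ℝ) / N - q|) := by ring
      _ ≤ 4 := by linarith
  have hqabs : |(q : ℝ)| ≤ 2 := by
    have h5 : |(t : ℝ) - N * q| ≤ N := by
      have h6 : κ₀ * |(t : ℝ) - N * q| ≤ κ₀ * N := by
        calc κ₀ * |(t : ℝ) - N * q| ≤ κ * |(t : ℝ) - N * q| := mul_le_mul_of_nonneg_right hgt.le (abs_nonneg _)
          _ ≤ 4 := hdist
          _ ≤ κ₀ * N := hκN
      exact le_of_mul_le_mul_left h6 hκ0
    have ht' : (t : ℝ) ≤ N := by exact_mod_cast ht.le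
    have ht0 : (0 : ℝ) ≤ t := Nat.cast_nonneg _
    have h6 := abs_le.1 h5
    have h7 : |(N : ℝ) * q| ≤ N * 2 := by
      rw [abs_le]
      constructor <;> linarith [h6.1, h6.2]
    rw [abs_mul, abs_of_pos hN0] at h7
    exact le_of_mul_le_mul_left h7 hN0
  have hnum : q.num ∈ Icc (-2 * (r : ℤ)) (2 * r) := by
    rw [hqr, abs_div, abs_of_pos hrr, div_le_iff₀ hrr] at hqabs
    have h5 := abs_le.1 hqabs
    rw [mem_Icc]
    constructor
    · have : (-2 * (r : ℤ) : ℝ) ≤ q.num := by push_cast; linarith [h5.1]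
      exact_mod_cast this
    · have : (q.num : ℝ) ≤ (2 * (r : ℤ) : ℝ) := by push_cast; linarith [h5.2]
      exact_mod_cast this
  have hrmem : r ∈ Icc 1 (16 * Q) := mem_Icc.2 ⟨hr0, hq1⟩
  have hsq : κ ^ 2 ≤ 17 / (1 + ((t : ℝ) - N * ((q.num : ℝ) / r)) ^ 2) := by
    rw [le_div_iff₀ (by positivity), ← hqr]
    have h5 : (κ * |(t : ℝ) - N * q|) ^ 2 ≤ 4 ^ 2 := pow_le_pow_left₀ (by positivity) hdist 2
    rw [mul_pow, sq_abs] at h5
    have h6 : κ ^ 2 ≤ 1 := pow_le_one₀ hκnn hκ1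
    nlinarith
  have hcw : κ ^ (2 * k) ≤ cw k Y r := by
    unfold cw
    split_ifs with hrY
    · exact pow_le_one₀ hκnn hκ1
    · rw [not_le] at hrY
      have h5 := hgcd r hrY
      have h6 : κ / 6 * S.card ≤ (2 * (r : ℝ) ^ (-η)) * S.card := by
        refine hq2.trans (h5.trans (le_of_eq ?_))
        ring
      have h7 : κ ≤ 12 * (r : ℝ) ^ (-η) := by
        have := le_of_mul_le_mul_right h6 hc0
        linarith
      have h8 : κ ^ (2 * k) ≤ (12 * (r : ℝ) ^ (-η)) ^ (2 * k) := pow_le_pow_left₀ hκnn h7 _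
      refine h8.trans ?_
      rw [mul_pow, div_eq_mul_inv]
      apply mul_le_mul_of_nonneg_left _ (by positivity)
      rw [← Real.rpow_natCast ((r : ℝ) ^ (-η)) (2 * k), ← Real.rpow_mul hrr.le]
      have h9 : ((r : ℝ) ^ 4)⁻¹ = (r : ℝ) ^ (-4 : ℝ) := by
        rw [Real.rpow_neg hrr.le]
        congr 1
        rw [← Real.rpow_natCast]
        norm_num
      rw [h9]
      apply Real.rpow_le_rpow_of_exponent_le hr1
      push_cast
      linarith
  have hmain : κ ^ (2 * (k + 1)) ≤ cw k Y r * (17 / (1 + ((t : ℝ) - N * ((q.num : ℝ) / r)) ^ 2)) := by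
    have e : κ ^ (2 * (k + 1)) = κ ^ (2 * k) * κ ^ 2 := by rw [← pow_add]; congr 1
    rw [e]
    exact mul_le_mul hcw hsq (by positivity) (cw_nonneg k Y r)
  have h10 : cw k Y r * (17 / (1 + ((t : ℝ) - N * ((q.num : ℝ) / r)) ^ 2)) ≤
      ∑ r ∈ Icc 1 (16 * Q), ∑ a ∈ Icc (-2 * (r : ℤ)) (2 * r), cw k Y r *
        (17 / (1 + ((t : ℝ) - N * ((a : ℝ) / r)) ^ 2)) := by
    refine le_trans ?_ (single_le_sum (f := fun r : ℕ => ∑ a ∈ Icc (-2 * (r : ℤ)) (2 * r), cw k Y r *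
        (17 / (1 + ((t : ℝ) - N * ((a : ℝ) / r)) ^ 2))) (fun r hr => sum_nonneg fun a ha => hterm r hr a ha) hrmem)
    exact single_le_sum (f := fun a : ℤ => cw k Y r *
        (17 / (1 + ((t : ℝ) - N * ((a : ℝ) / r)) ^ 2))) (fun a ha => hterm r hrmem a ha) hnum
  have h11 : 0 ≤ κ₀ ^ (2 * (k + 1)) := by positivity
  linarith

lemma sum_cw (k R : ℕ) (Y : ℝ) (hY : 1 ≤ Y) :
    ∑ r ∈ Icc 1 R, cw k Y r * (5 * r) ≤ 5 * Y ^ 2 + 10 * 12 ^ (2 * k) := by
  classical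
  have h1 : ∀ r ∈ Icc 1 R, cw k Y r * (5 * r) ≤ (if (r : ℝ) ≤ Y then 5 * Y else 0) +
      5 * 12 ^ (2 * k) * (1 / (r : ℝ) ^ 2) := by
    intro r hr
    have hr1 : 1 ≤ r := (mem_Icc.1 hr).1
    have hr0 : (1 : ℝ) ≤ r := by exact_mod_cast hr1
    unfold cw
    split_ifs with h
    · have : 0 ≤ 5 * 12 ^ (2 * k) * (1 / (r : ℝ) ^ 2) := by positivity
      linarith
    · rw [zero_add]
      have e : 12 ^ (2 * k) / (r : ℝ) ^ 4 * (5 * r) = 5 * 12 ^ (2 * k) * (1 / (r : ℝ) ^ 3) := by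
        field_simp
      rw [e]
      apply mul_le_mul_of_nonneg_left _ (by positivity)
      apply one_div_le_one_div_of_le (by positivity)
      exact pow_le_pow_right₀ hr0 (by norm_num)
  refine (sum_le_sum h1).trans ?_
  rw [sum_add_distrib, ← mul_sum]
  have h2 := Pool.Agent.TH786.GM.sum_inv_sq' R
  have h3 : 5 * 12 ^ (2 * k) * ∑ d ∈ Icc 1 R, 1 / (d : ℝ) ^ 2 ≤ 5 * 12 ^ (2 * k) * 2 :=
    mul_le_mul_of_nonneg_left h2 (by positivity)
  have h4 : ∑ r ∈ Icc 1 R, (if (r : ℝ) ≤ Y then 5 * Y else 0) ≤ 5 * Y ^ 2 := by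
    rw [← sum_filter, sum_const, nsmul_eq_mul]
    have h5 : ((Icc 1 R).filter (fun r : ℕ => (r : ℝ) ≤ Y)).card ≤ ⌊Y⌋₊ := by
      have h6 : (Icc 1 R).filter (fun r : ℕ => (r : ℝ) ≤ Y) ⊆ Icc 1 ⌊Y⌋₊ := by
        intro r hr
        rw [mem_filter, mem_Icc] at hr
        exact mem_Icc.2 ⟨hr.1.1, Nat.le_floor hr.2⟩
      have := card_le_card h6
      rwa [Nat.card_Icc, Nat.add_sub_cancel] at this
    have h7 : (((Icc 1 R).filter (fun r : ℕ => (r : ℝ) ≤ Y)).card : ℝ) ≤ Y := by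
      have h8 : (((Icc 1 R).filter (fun r : ℕ => (r : ℝ) ≤ Y)).card : ℝ) ≤ (⌊Y⌋₊ : ℝ) := by exact_mod_cast h5
      exact h8.trans (Nat.floor_le (by linarith))
    calc (((Icc 1 R).filter (fun r : ℕ => (r : ℝ) ≤ Y)).card : ℝ) * (5 * Y) ≤ Y * (5 * Y) :=
          mul_le_mul_of_nonneg_right h7 (by linarith)
      _ = 5 * Y ^ 2 := by ring
  linarith

/-- the family of the multiples -/
def fam (S : Finset ℕ) (M : ℕ) : {x // x ∈ S} × Fin M → ℤ := fun i => ((i.1 : ℕ) : ℤ) * (((i.2 : ℕ) : ℤ) + 1)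

lemma KS_eq (S : Finset ℕ) (M N t : ℕ) :
    ∑ i, ee ((t : ℝ) * ((fam S M i : ℝ) / N)) = KS S M (t / N) := by
  classical
  unfold KS fam
  rw [Fintype.sum_prod_type, ← sum_coe_sort S]
  apply sum_congr rfl
  intro s _
  rw [sum_Ico_eq_sum_range, Nat.add_sub_cancel, sum_range]
  apply sum_congr rfl
  intro i _
  congr 1
  push_cast
  ring

/-- **the additive energy of the family of the multiples of the members of a large set** -/
theorem energy_mod (k N Q M : ℕ) (hN : 1 ≤ N) (hQ : 1 ≤ Q) (hM : 1 ≤ M) (hNQ : N ≤ 2 * M * Q)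
    (η Y κ₀ : ℝ) (hη : 4 ≤ η * (2 * k)) (hY : 1 ≤ Y) (hκ0 : 0 < κ₀) (hκN : 4 ≤ κ₀ * N)
    (hκh : N * κ₀ ^ (2 * (k + 1)) ≤ 1)
    (S : Finset ℕ) (hS : ∀ s ∈ S, Q ≤ s ∧ s < 4 * Q) (hne : S.Nonempty)
    (hbig : 3360 * Q < S.card * M * κ₀ ^ 2)
    (hgcd : ∀ d : ℕ, Y < d → ((S.filter (fun s => d ∣ s)).card : ℝ) ≤ 2 * S.card * (d : ℝ) ^ (-η)) :
    (En (k + 1) (fam S M) : ℝ) * N ≤
      (S.card * M) ^ (2 * (k + 1)) * (1 + 102 * (5 * Y ^ 2 + 10 * 12 ^ (2 * k))) := by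
  classical
  have hM0 : (0 : ℝ) < M := by exact_mod_cast hM
  have hN0 : (0 : ℝ) < N := by exact_mod_cast hN
  have hc0 : (0 : ℝ) < S.card := by exact_mod_cast hne.card_pos
  have h1 := en_le (k + 1) (fam S M) N hN
  simp only [KS_eq] at h1
  rw [mul_comm]
  refine h1.trans ?_
  have h2 : ∀ t ∈ range N, ‖KS S M (t / N)‖ ^ (2 * (k + 1)) = (S.card * M : ℝ) ^ (2 * (k + 1)) *
      (‖KS S M (t / N)‖ / (S.card * M)) ^ (2 * (k + 1)) := by
    intro t _
    rw [div_pow, mul_div_cancel₀]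
    positivity
  rw [sum_congr rfl h2, ← mul_sum]
  apply mul_le_mul_of_nonneg_left _ (by positivity)
  have h3 : ∑ t ∈ range N, (‖KS S M (t / N)‖ / (S.card * M)) ^ (2 * (k + 1)) ≤
      ∑ t ∈ range N, (κ₀ ^ (2 * (k + 1)) +
      ∑ r ∈ Icc 1 (16 * Q), ∑ a ∈ Icc (-2 * (r : ℤ)) (2 * r), cw k Y r *
        (17 / (1 + ((t : ℝ) - N * ((a : ℝ) / r)) ^ 2))) :=
    sum_le_sum fun t ht => point k N Q M hN hQ hM hNQ η Y κ₀ hη hκ0 hκN S hS hne hbig hgcd t (mem_range.1 ht)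
  refine h3.trans ?_
  rw [sum_add_distrib, sum_const, card_range, nsmul_eq_mul]
  apply add_le_add hκh
  rw [sum_comm]
  have h4 : ∀ r ∈ Icc 1 (16 * Q), ∑ t ∈ range N, ∑ a ∈ Icc (-2 * (r : ℤ)) (2 * r), cw k Y r *
        (17 / (1 + ((t : ℝ) - N * ((a : ℝ) / r)) ^ 2)) ≤ 102 * (cw k Y r * (5 * r)) := by
    intro r hr
    have hr1 : 1 ≤ r := (mem_Icc.1 hr).1
    have hr0 : (1 : ℝ) ≤ r := by exact_mod_cast hr1
    rw [sum_comm]
    have h5 : ∀ a ∈ Icc (-2 * (r : ℤ)) (2 * r), ∑ t ∈ range N, cw k Y r *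
        (17 / (1 + ((t : ℝ) - N * ((a : ℝ) / r)) ^ 2)) ≤ 102 * cw k Y r := by
      intro a _
      have h6 : ∑ t ∈ range N, cw k Y r * (17 / (1 + ((t : ℝ) - N * ((a : ℝ) / r)) ^ 2)) =
          17 * cw k Y r * ∑ t ∈ range N, 1 / (1 + ((t : ℝ) - N * ((a : ℝ) / r)) ^ 2) := by
        rw [mul_sum]
        apply sum_congr rfl
        intro t _
        ring
      rw [h6]
      have h7 := sum_dist N (N * ((a : ℝ) / r))
      have h8 := cw_nonneg k Y r
      calc 17 * cw k Y r * ∑ t ∈ range N, 1 / (1 + ((t : ℝ) - N * ((a : ℝ) / r)) ^ 2) ≤ 17 * cw k Y r * 6 :=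
            mul_le_mul_of_nonneg_left h7 (by positivity)
        _ = 102 * cw k Y r := by ring
    refine (sum_le_sum h5).trans ?_
    rw [sum_const, Int.card_Icc, nsmul_eq_mul]
    have h9 : (((2 * (r : ℤ) + 1 - -2 * (r : ℤ)).toNat : ℕ) : ℝ) = 4 * r + 1 := by
      rw [← Int.cast_natCast (R := ℝ), Int.toNat_of_nonneg (by omega)]
      push_cast
      ring
    rw [h9]
    have h8 := cw_nonneg k Y r
    calc (4 * (r : ℝ) + 1) * (102 * cw k Y r) ≤ (5 * r) * (102 * cw k Y r) :=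
          mul_le_mul_of_nonneg_right (by linarith) (by positivity)
      _ = 102 * (cw k Y r * (5 * r)) := by ring
  refine (sum_le_sum h4).trans ?_
  rw [← mul_sum]
  exact mul_le_mul_of_nonneg_left (sum_cw k (16 * Q) Y hY) (by norm_num)

end Pool.Agent.Y883
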