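import Mathlib

set_option autoImplicit false

/-! Sets of integers all of whose large subsets have many members with a common divisor. -/

namespace Pool.Agent.Y883

open Finset

/-- the structure of sets all of whose large subsets have many members with a common divisor -/
theorem struct2 (Y η J : ℝ) (hY : 1 ≤ Y) (hη0 : 0 < η) (hJ : 0 ≤ J) :
    ∀ n : ℕ, ∀ R : Finset ℕ, R.card ≤ n →
      (∀ R' ⊆ R, J < R'.card → ∃ d : ℕ, Y < d ∧
        (R'.card : ℝ) * (d : ℝ) ^ (-η) ≤ (R'.filter (fun q => d ∣ q)).card) →
      ∃ D : Finset ℕ, (∀ d ∈ D, Y < d) ∧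
        ((R.filter (fun q => ∀ d ∈ D, ¬ d ∣ q)).card : ℝ) ≤ J ∧
        ∀ X : ℝ, 1 ≤ X → ((D.filter (fun d : ℕ => (d : ℝ) ≤ X)).card : ℝ) ≤ X ^ η * Real.log R.card + 1 := by
  classical
  intro n
  induction n with
  | zero =>
    intro R hRn _
    have : R = ∅ := card_eq_zero.1 (Nat.le_zero.1 hRn)
    subst this
    refine ⟨∅, by simp, by simpa using hJ, fun X hX => by simp⟩
  | succ n ih =>
    intro R hRn hH
    rcases le_or_gt (R.card : ℝ) J with hsm | hlg
    · refine ⟨∅, by simp, ?_, fun X hX => ?_⟩
      · refine le_trans ?_ hsm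
        exact_mod_cast card_filter_le _ _
      · have h1 : 0 ≤ Real.log R.card := Real.log_natCast_nonneg _
        simp only [filter_empty, card_empty, Nat.cast_zero]
        positivity
    have hne : R.Nonempty := by
      rw [← card_pos]
      have : (0 : ℝ) < R.card := lt_of_le_of_lt hJ hlg
      exact_mod_cast this
    obtain ⟨d, hdY, hd⟩ := hH R (Subset.refl _) hlg
    have hd0 : (0 : ℝ) < d := by linarith
    have hd1 : (1 : ℝ) < d := by linarith
    have hRc : (0 : ℝ) < R.card := by exact_mod_cast hne.card_pos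
    have hRc1 : (1 : ℝ) ≤ R.card := by exact_mod_cast hne.card_pos
    have hlogR : 0 ≤ Real.log R.card := Real.log_nonneg hRc1
    have hdη : 0 < (d : ℝ) ^ (-η) := Real.rpow_pos_of_pos hd0 _
    obtain ⟨R2, hR2⟩ : ∃ R2, R2 = R.filter (fun q => ¬ d ∣ q) := ⟨_, rfl⟩
    have hsum : (R.filter (fun q => d ∣ q)).card + R2.card = R.card := by
      rw [hR2]
      exact card_filter_add_card_filter_not _
    have hsumR : ((R.filter (fun q => d ∣ q)).card : ℝ) + R2.card = R.card := by exact_mod_cast hsum
    have hpos : 0 < (R.filter (fun q => d ∣ q)).card := by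
      have : (0 : ℝ) < (R.filter (fun q => d ∣ q)).card := lt_of_lt_of_le (by positivity) hd
      exact_mod_cast this
    rcases R2.eq_empty_or_nonempty with h2e | h2ne
    · refine ⟨{d}, ?_, ?_, ?_⟩
      · intro d' hd'
        rw [mem_singleton] at hd'
        rw [hd']; exact hdY
      · have h0 : R.filter (fun q => ∀ d' ∈ ({d} : Finset ℕ), ¬ d' ∣ q) = ∅ := by
          rw [filter_eq_empty_iff]
          intro q hq hdq
          have : q ∈ R2 := by rw [hR2]; exact mem_filter.2 ⟨hq, hdq d (mem_singleton_self _)⟩
          rw [h2e] at this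
          exact absurd this (notMem_empty _)
        rw [h0]
        simpa using hJ
      · intro X hX
        have h1 : (({d} : Finset ℕ).filter (fun d : ℕ => (d : ℝ) ≤ X)).card ≤ 1 := by
          refine (card_filter_le _ _).trans ?_
          simp
        have h2 : ((({d} : Finset ℕ).filter (fun d : ℕ => (d : ℝ) ≤ X)).card : ℝ) ≤ 1 := by
          exact_mod_cast h1
        have h3 : 0 ≤ X ^ η * Real.log R.card := by positivity
        linarith
    · obtain ⟨D2, hD2a, hD2b, hD2c⟩ := ih R2 (by omega)
        (fun R' hR' => hH R' (hR'.trans (by rw [hR2]; exact filter_subset _ _)))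
      refine ⟨insert d D2, ?_, ?_, ?_⟩
      · intro d' hd'
        rcases mem_insert.1 hd' with rfl | h
        · exact hdY
        · exact hD2a d' h
      · refine le_trans ?_ hD2b
        have h0 : R.filter (fun q => ∀ d' ∈ insert d D2, ¬ d' ∣ q) ⊆
            R2.filter (fun q => ∀ d' ∈ D2, ¬ d' ∣ q) := by
          intro q hq
          rw [mem_filter] at hq
          rw [mem_filter, hR2, mem_filter]
          exact ⟨⟨hq.1, hq.2 d (mem_insert_self _ _)⟩, fun d' hd' => hq.2 d' (mem_insert_of_mem hd')⟩
        exact_mod_cast card_le_card h0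
      · intro X hX
        have hc := hD2c X hX
        have h2c : (0 : ℝ) < R2.card := by exact_mod_cast h2ne.card_pos
        have h2le : (R2.card : ℝ) ≤ R.card * (1 - (d : ℝ) ^ (-η)) := by
          have : (R.card : ℝ) * (1 - (d : ℝ) ^ (-η)) = R.card - R.card * (d : ℝ) ^ (-η) := by ring
          rw [this]
          linarith
        have hone : 0 < 1 - (d : ℝ) ^ (-η) := by
          by_contra hcon
          have : (R.card : ℝ) * (1 - (d : ℝ) ^ (-η)) ≤ 0 :=
            mul_nonpos_of_nonneg_of_nonpos hRc.le (not_lt.1 hcon)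
          linarith
        have hlog : Real.log R2.card ≤ Real.log R.card - (d : ℝ) ^ (-η) := by
          have h1 := Real.log_le_log h2c h2le
          rw [Real.log_mul hRc.ne' hone.ne'] at h1
          have h2 := Real.log_le_sub_one_of_pos hone
          linarith
        have hXη : 0 ≤ X ^ η := Real.rpow_nonneg (by linarith) _
        rcases le_or_gt (d : ℝ) X with hdX | hdX
        · have h1 : ((insert d D2).filter (fun d : ℕ => (d : ℝ) ≤ X)).card ≤
              (D2.filter (fun d : ℕ => (d : ℝ) ≤ X)).card + 1 := by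
            rw [filter_insert, if_pos hdX]
            exact card_insert_le _ _
          have h2 : (((insert d D2).filter (fun d : ℕ => (d : ℝ) ≤ X)).card : ℝ) ≤
              (D2.filter (fun d : ℕ => (d : ℝ) ≤ X)).card + 1 := by exact_mod_cast h1
          have h3 : 1 ≤ X ^ η * (d : ℝ) ^ (-η) := by
            rw [Real.rpow_neg hd0.le, ← div_eq_mul_inv, le_div_iff₀ (Real.rpow_pos_of_pos hd0 _), one_mul]
            exact Real.rpow_le_rpow hd0.le hdX hη0.le
          have h4 : X ^ η * Real.log R2.card ≤ X ^ η * (Real.log R.card - (d : ℝ) ^ (-η)) :=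
            mul_le_mul_of_nonneg_left hlog hXη
          have h5 : X ^ η * (Real.log R.card - (d : ℝ) ^ (-η)) =
            X ^ η * Real.log R.card - X ^ η * (d : ℝ) ^ (-η) := by ring
          linarith
        · have h1 : (insert d D2).filter (fun d : ℕ => (d : ℝ) ≤ X) = D2.filter (fun d : ℕ => (d : ℝ) ≤ X) := by
            rw [filter_insert, if_neg (not_le.2 hdX)]
          rw [h1]
          have h4 : X ^ η * Real.log R2.card ≤ X ^ η * Real.log R.card :=
            mul_le_mul_of_nonneg_left (by linarith) hXη
          linarith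

end Pool.Agent.Y883
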