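import Pool.Agent.Y883.Core
import Pool.Agent.Y883.Str

set_option autoImplicit false

/-! The exceptional moduli are few, apart from the multiples of few integers. -/

namespace Pool.Agent.Y883

open Finset

lemma sum_four (n : ℕ) : ∑ j ∈ range (n + 1), (4 : ℝ) ^ j ≤ 2 * 4 ^ n := by
  induction n with
  | zero => simp
  | succ n ih =>
    rw [sum_range_succ, pow_succ]
    have : (0 : ℝ) < 4 ^ n := by positivity
    linarith

theorem main2 (P : ℕ → Prop) (HP : BB P) (ρ : ℝ) (hρ : 0 < ρ) (A : ℕ) :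
    ∃ N₀ : ℕ, ∀ N : ℕ, N₀ ≤ N → ∃ D : Finset ℕ,
      (∀ d ∈ D, Real.log N ^ A < (d : ℝ)) ∧
      (∀ X : ℝ, 1 ≤ X → ((D.filter (fun d : ℕ => (d : ℝ) ≤ X)).card : ℝ) ≤ X ^ ρ) ∧
      ∀ X : ℕ, X ≤ N → (((Icc 1 X).filter (fun q => (∀ d ∈ D, ¬ d ∣ q) ∧
        (N : ℝ) / (q * Real.log N ^ A) < (badm P N q).card)).card : ℝ) * N ≤ (X : ℝ) ^ 2 * (N : ℝ) ^ ρ := by
  classical
  obtain ⟨B, hB⟩ := exists_nat_ge (6 / ρ)
  obtain ⟨k0, hk0⟩ := exists_nat_ge (4 / ρ)
  obtain ⟨k, hk⟩ : ∃ k, k = k0 + 2 := ⟨_, rfl⟩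
  have hk2 : (2 : ℝ) ≤ k := by rw [hk]; push_cast; linarith [(Nat.cast_nonneg k0 : (0 : ℝ) ≤ k0)]
  have hkρ : 4 / ρ ≤ k := by rw [hk]; push_cast; linarith
  rw [div_le_iff₀ hρ] at hkρ
  obtain ⟨A', hA'⟩ : ∃ A', A' = A + B + 1 := ⟨_, rfl⟩
  obtain ⟨η, hη⟩ : ∃ η : ℝ, η = 2 / (k : ℝ) := ⟨_, rfl⟩
  have hkpos : (0 : ℝ) < k := by linarith
  have hη0 : 0 < η := by rw [hη]; positivity
  have hη4 : 4 ≤ η * (2 * k) := by
    rw [hη]
    apply le_of_eq
    field_simp
    norm_num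
  have hη1 : η ≤ 1 := by rw [hη, div_le_one hkpos]; exact hk2
  have hη2 : η ≤ ρ / 2 := by
    rw [hη, div_le_div_iff₀ hkpos (by norm_num)]
    linarith
  have hkρ2 : 1 / ((k : ℝ) + 1) < ρ / 2 := by
    rw [div_lt_div_iff₀ (by positivity) (by norm_num)]
    nlinarith
  have hA0 : (0 : ℝ) < A' := by rw [hA']; push_cast; positivity
  have hA1 : 3 / (A' : ℝ) ≤ ρ / 2 := by
    rw [div_le_div_iff₀ hA0 (by norm_num)]
    rw [div_le_iff₀ hρ] at hB
    have : (B : ℝ) ≤ A' := by rw [hA']; push_cast; linarith [(Nat.cast_nonneg A : (0 : ℝ) ≤ A)]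
    nlinarith
  obtain ⟨N₁, h1⟩ := core2 P HP k A' A' η (ρ / 2) hη4 hη1 hkρ2
  obtain ⟨N₂, h2⟩ := Pool.Agent.H373R2.T7.ev_L' 20
  obtain ⟨N₃, h3⟩ := tendsto_pow_log 2 (ρ / 2) (by linarith)
  refine ⟨N₁ + N₂ + N₃ + 1, fun N hN => ?_⟩
  have hL := h2 N (by omega)
  have hN3 := h3 N (by omega)
  have c1 := h1 N (by omega)
  obtain ⟨L, hLd⟩ : ∃ L, L = Real.log (N : ℝ) := ⟨_, rfl⟩
  rw [← hLd] at hL c1 ⊢
  have hL0 : 0 < L := by linarith
  have hL1 : 1 ≤ L := by linarith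
  have hN0 : (0 : ℝ) < N := by exact_mod_cast (by omega : 0 < N)
  have hY : 1 ≤ L ^ A' := one_le_pow₀ hL1
  obtain ⟨Rj, hRj⟩ : ∃ Rj : ℕ → Finset ℕ, Rj = fun j => (Icc 1 N).filter (fun q : ℕ =>
    2 ^ j ≤ q ∧ q < 2 * 2 ^ j ∧ (N : ℝ) / (q * L ^ A') < (badm P N q).card) := ⟨_, rfl⟩
  have hst : ∀ j : ℕ, ∃ D : Finset ℕ, (∀ d ∈ D, L ^ A' < d) ∧
        (((Rj j).filter (fun q => ∀ d ∈ D, ¬ d ∣ q)).card : ℝ) ≤ (4 : ℝ) ^ j * (N : ℝ) ^ (ρ / 2) / N ∧
        ∀ X : ℝ, 1 ≤ X → ((D.filter (fun d : ℕ => (d : ℝ) ≤ X)).card : ℝ) ≤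
          X ^ η * Real.log (Rj j).card + 1 := by
    intro j
    apply struct2 (L ^ A') η ((4 : ℝ) ^ j * (N : ℝ) ^ (ρ / 2) / N) hY hη0 (by positivity) (Rj j).card (Rj j) le_rfl
    intro R' hR' hbig
    have hmem : ∀ q ∈ R', (q ∈ Icc 1 N) ∧ 2 ^ j ≤ q ∧ q < 2 * 2 ^ j ∧
        (N : ℝ) / (q * L ^ A') < (badm P N q).card := by
      intro q hq
      have := hR' hq
      rw [hRj, mem_filter] at this
      exact this
    have hne : R'.Nonempty := by
      rw [← card_pos]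
      have : (0 : ℝ) < R'.card := lt_of_le_of_lt (by positivity) hbig
      exact_mod_cast this
    obtain ⟨q0, hq0⟩ := hne
    have hq1 := hmem q0 hq0
    apply c1 (2 ^ j) Nat.one_le_two_pow (hq1.2.1.trans (mem_Icc.1 hq1.1).2) R'
      (fun q hq => ⟨(hmem q hq).2.1, (hmem q hq).2.2.1⟩) (fun q hq => (hmem q hq).2.2.2)
    rw [div_lt_iff₀ hN0] at hbig
    have e : (((2 ^ j : ℕ) : ℝ)) ^ 2 = (4 : ℝ) ^ j := by
      push_cast
      rw [← pow_mul, mul_comm, pow_mul]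
      norm_num
    rw [e]
    exact hbig
  choose Dj hDj using hst
  obtain ⟨J, hJ⟩ : ∃ J, J = Nat.log 2 N + 1 := ⟨_, rfl⟩
  have hJL : (J : ℝ) ≤ 2 * L + 1 := by
    rw [hJ]
    push_cast
    have h3 : (Nat.log 2 N : ℝ) ≤ Real.logb 2 N := by
      have := Real.natLog_le_logb N 2
      exact_mod_cast this
    have h4 : Real.logb 2 N ≤ 2 * L := by
      rw [Real.logb, ← hLd, div_le_iff₀ (Real.log_pos (by norm_num))]
      have := Real.log_two_gt_d9
      nlinarith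
    linarith
  have hcardlog : ∀ j, Real.log (Rj j).card ≤ L := by
    intro j
    rcases Nat.eq_zero_or_pos (Rj j).card with h0 | h0
    · rw [h0]; simp; linarith
    · rw [hLd]
      apply Real.log_le_log (by exact_mod_cast h0)
      have : (Rj j).card ≤ N := by
        calc (Rj j).card ≤ (Icc 1 N).card := by rw [hRj]; exact card_filter_le _ _
          _ = N := by simp
      exact_mod_cast this
  refine ⟨(range J).biUnion Dj, ?_, ?_, ?_⟩
  · intro d hd
    obtain ⟨j, _, hj⟩ := mem_biUnion.1 hd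
    have h3 := (hDj j).1 d hj
    refine lt_of_le_of_lt ?_ h3
    apply pow_le_pow_right₀ hL1
    omega
  · intro X hX
    have hX0 : 0 < X := by linarith
    rcases le_or_gt X (L ^ A') with hXY | hXY
    · have h3 : ((range J).biUnion Dj).filter (fun d : ℕ => (d : ℝ) ≤ X) = ∅ := by
        rw [filter_eq_empty_iff]
        intro d hd hdX
        obtain ⟨j, _, hj⟩ := mem_biUnion.1 hd
        have h3 := (hDj j).1 d hj
        linarith
      rw [h3]
      simp
      positivity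
    · have h3 : (((range J).biUnion Dj).filter (fun d : ℕ => (d : ℝ) ≤ X)).card ≤
          ∑ j ∈ range J, ((Dj j).filter (fun d : ℕ => (d : ℝ) ≤ X)).card := by
        rw [filter_biUnion]
        exact card_biUnion_le
      have hXη1 : 1 ≤ X ^ η := Real.one_le_rpow hX hη0.le
      calc ((((range J).biUnion Dj).filter (fun d : ℕ => (d : ℝ) ≤ X)).card : ℝ)
          ≤ ((∑ j ∈ range J, ((Dj j).filter (fun d : ℕ => (d : ℝ) ≤ X)).card : ℕ) : ℝ) := by
            exact_mod_cast h3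
        _ = ∑ j ∈ range J, (((Dj j).filter (fun d : ℕ => (d : ℝ) ≤ X)).card : ℝ) := by push_cast; rfl
        _ ≤ ∑ _j ∈ range J, (X ^ η * L + 1) := by
            apply sum_le_sum
            intro j _
            refine ((hDj j).2.2 X hX).trans ?_
            have := mul_le_mul_of_nonneg_left (hcardlog j) (by positivity : 0 ≤ X ^ η)
            linarith
        _ = J * (X ^ η * L + 1) := by rw [sum_const, card_range, nsmul_eq_mul]
        _ ≤ (2 * L + 1) * (X ^ η * L + 1) := mul_le_mul_of_nonneg_right hJL (by positivity)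
        _ ≤ (3 * L) * (X ^ η * L + X ^ η * L) := by
            apply mul_le_mul (by linarith) _ (by positivity) (by positivity)
            nlinarith
        _ = 6 * (L ^ 2 * X ^ η) := by ring
        _ ≤ L * (L ^ 2 * X ^ η) := mul_le_mul_of_nonneg_right (by linarith) (by positivity)
        _ = L ^ 3 * X ^ η := by ring
        _ ≤ X ^ (3 / (A' : ℝ)) * X ^ η := by
            apply mul_le_mul_of_nonneg_right _ (by positivity)
            have e1 : L ^ 3 = (L ^ A') ^ (3 / (A' : ℝ)) := by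
              rw [← Real.rpow_natCast L A', ← Real.rpow_mul hL0.le, mul_div_cancel₀ _ hA0.ne']
              norm_num
            rw [e1]
            exact Real.rpow_le_rpow (by positivity) hXY.le (by positivity)
        _ = X ^ (3 / (A' : ℝ) + η) := by rw [Real.rpow_add hX0]
        _ ≤ X ^ ρ := Real.rpow_le_rpow_of_exponent_le hX (by linarith)
  · intro X hXN
    rcases Nat.eq_zero_or_pos X with hX0 | hX0
    · subst hX0
      simp
    have hX0r : (0 : ℝ) < X := by exact_mod_cast hX0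
    obtain ⟨n, hn⟩ : ∃ n, n = Nat.log 2 X := ⟨_, rfl⟩
    have hsub : (Icc 1 X).filter (fun q => (∀ d ∈ (range J).biUnion Dj, ¬ d ∣ q) ∧
        (N : ℝ) / (q * L ^ A) < (badm P N q).card) ⊆
        (range (n + 1)).biUnion (fun j => (Rj j).filter (fun q => ∀ d ∈ Dj j, ¬ d ∣ q)) := by
      intro q hq
      rw [mem_filter, mem_Icc] at hq
      obtain ⟨⟨hq1, hqX⟩, hqD, hqb⟩ := hq
      have hq0 : (0 : ℝ) < q := by exact_mod_cast hq1
      rw [mem_biUnion]
      refine ⟨Nat.log 2 q, ?_, ?_⟩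
      · rw [mem_range, hn]
        have := Nat.log_mono_right (b := 2) hqX
        omega
      rw [mem_filter, hRj, mem_filter, mem_Icc]
      refine ⟨⟨⟨hq1, hqX.trans hXN⟩, Nat.pow_log_le_self 2 (by omega), ?_, ?_⟩, ?_⟩
      · have := Nat.lt_pow_succ_log_self (by norm_num : 1 < 2) q
        rw [pow_succ] at this
        omega
      · refine lt_of_le_of_lt ?_ hqb
        apply div_le_div_of_nonneg_left hN0.le (by positivity)
        apply mul_le_mul_of_nonneg_left _ hq0.le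
        apply pow_le_pow_right₀ hL1
        omega
      · intro d hd
        apply hqD
        apply mem_biUnion.2 ⟨Nat.log 2 q, _, hd⟩
        rw [mem_range, hJ]
        have := Nat.log_mono_right (b := 2) (hqX.trans hXN)
        omega
    have h4 : (((Icc 1 X).filter (fun q => (∀ d ∈ (range J).biUnion Dj, ¬ d ∣ q) ∧
        (N : ℝ) / (q * L ^ A) < (badm P N q).card)).card : ℝ) ≤
        ∑ j ∈ range (n + 1), (4 : ℝ) ^ j * (N : ℝ) ^ (ρ / 2) / N := by
      refine le_trans (?_ : _ ≤ ((∑ j ∈ range (n + 1), ((Rj j).filter (fun q => ∀ d ∈ Dj j, ¬ d ∣ q)).card : ℕ) : ℝ)) ?_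
      · exact_mod_cast (card_le_card hsub).trans card_biUnion_le
      · push_cast
        exact sum_le_sum fun j _ => (hDj j).2.1
    have h5 : ∑ j ∈ range (n + 1), (4 : ℝ) ^ j * (N : ℝ) ^ (ρ / 2) / N =
        (∑ j ∈ range (n + 1), (4 : ℝ) ^ j) * ((N : ℝ) ^ (ρ / 2) / N) := by
      rw [sum_mul]
      apply sum_congr rfl
      intro j _
      ring
    have h6 : (4 : ℝ) ^ n ≤ (X : ℝ) ^ 2 := by
      have h7 : 2 ^ n ≤ X := by rw [hn]; exact Nat.pow_log_le_self 2 (by omega)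
      have h8 : ((2 : ℝ) ^ n) ≤ X := by exact_mod_cast h7
      calc (4 : ℝ) ^ n = ((2 : ℝ) ^ n) ^ 2 := by
            rw [← pow_mul, mul_comm n 2, pow_mul]; norm_num
        _ ≤ (X : ℝ) ^ 2 := pow_le_pow_left₀ (by positivity) h8 2
    have h7 := sum_four n
    calc (((Icc 1 X).filter (fun q => (∀ d ∈ (range J).biUnion Dj, ¬ d ∣ q) ∧
        (N : ℝ) / (q * L ^ A) < (badm P N q).card)).card : ℝ) * N ≤
          ((∑ j ∈ range (n + 1), (4 : ℝ) ^ j) * ((N : ℝ) ^ (ρ / 2) / N)) * N := by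
          rw [← h5]
          exact mul_le_mul_of_nonneg_right h4 hN0.le
      _ = (∑ j ∈ range (n + 1), (4 : ℝ) ^ j) * (N : ℝ) ^ (ρ / 2) := by
          field_simp
      _ ≤ (2 * (X : ℝ) ^ 2) * (N : ℝ) ^ (ρ / 2) := by
          apply mul_le_mul_of_nonneg_right _ (by positivity)
          linarith
      _ = (X : ℝ) ^ 2 * (2 * (N : ℝ) ^ (ρ / 2)) := by ring
      _ ≤ (X : ℝ) ^ 2 * ((N : ℝ) ^ (ρ / 2) * (N : ℝ) ^ (ρ / 2)) := by
          apply mul_le_mul_of_nonneg_left _ (by positivity)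
          exact mul_le_mul_of_nonneg_right hN3 (by positivity)
      _ = (X : ℝ) ^ 2 * (N : ℝ) ^ ρ := by rw [← Real.rpow_add hN0]; congr 2; ring

end Pool.Agent.Y883
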