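import Mathlib

set_option autoImplicit false

/-! Integers `s` of an interval `[1, 4 Q)` for which `α s` is near an integer: if there are many, then
all of them are divisible by the denominator of a good approximation to `α`. -/

namespace Pool.Agent.Y883

open Finset

/-- at most `2 t + 1` integers lie within `t` of a real number -/
lemma card_near (F : Finset ℤ) (y t : ℝ) (ht : 0 ≤ t) (hF : ∀ c ∈ F, |y - c| ≤ t) :
    (F.card : ℝ) ≤ 2 * t + 1 := by
  have hsub : F ⊆ Icc ⌈y - t⌉ ⌊y + t⌋ := by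
    intro c hc
    have h := abs_le.1 (hF c hc)
    rw [mem_Icc]
    exact ⟨Int.ceil_le.2 (by linarith), Int.le_floor.2 (by linarith)⟩
  have h1 := card_le_card hsub
  rw [Int.card_Icc] at h1
  have h2 : (F.card : ℝ) ≤ ((⌊y + t⌋ + 1 - ⌈y - t⌉).toNat : ℝ) := by exact_mod_cast h1
  refine h2.trans ?_
  have h3 : ((⌊y + t⌋ : ℤ) : ℝ) ≤ y + t := Int.floor_le _
  have h4 : y - t ≤ ((⌈y - t⌉ : ℤ) : ℝ) := Int.le_ceil _
  rcases le_total 0 (⌊y + t⌋ + 1 - ⌈y - t⌉) with h5 | h5
  · have h7 : (((⌊y + t⌋ + 1 - ⌈y - t⌉).toNat : ℕ) : ℝ) = ((⌊y + t⌋ + 1 - ⌈y - t⌉ : ℤ) : ℝ) := by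
      rw [← Int.cast_natCast (R := ℝ), Int.toNat_of_nonneg h5]
    rw [h7]
    push_cast
    linarith
  · rw [Int.toNat_of_nonpos h5]
    simp
    linarith

/-- one block of `r` consecutive integers -/
lemma block (r : ℕ) (hr : 0 < r) (a : ℤ) (hcop : IsCoprime a (r : ℤ)) (α δ ε : ℝ)
    (hα : |α - a / r| * r ≤ ε) (hδ : 0 ≤ δ) (hε : 0 ≤ ε) (k : ℕ) (F : Finset ℕ)
    (hF : ∀ s ∈ F, k * r ≤ s ∧ s < (k + 1) * r ∧ |α * s - round (α * s)| ≤ δ) :
    (F.card : ℝ) ≤ 2 * (r * (δ + ε)) + 1 := by
  classical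
  have hr0 : (0 : ℝ) < r := by exact_mod_cast hr
  set β : ℝ := α - a / r with hβ
  set f : ℕ → ℤ := fun s => r * round (α * s) - a * ((s : ℤ) - k * r) with hf
  have hinj : Set.InjOn f (F : Set ℕ) := by
    intro s hs s' hs' h
    have h1 := hF s (mem_coe.1 hs)
    have h2 := hF s' (mem_coe.1 hs')
    have h3 : a * ((s : ℤ) - s') = r * (round (α * s) - round (α * s')) := by
      simp only [hf] at h
      linarith
    have h4 : (r : ℤ) ∣ a * ((s : ℤ) - s') := ⟨_, h3⟩
    have h5 : (r : ℤ) ∣ (s : ℤ) - s' := hcop.symm.dvd_of_dvd_mul_left h4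
    have h6 : |(s : ℤ) - s'| < r := by
      have e1 : (s : ℤ) < (k + 1) * r := by exact_mod_cast h1.2.1
      have e2 : (k : ℤ) * r ≤ s := by exact_mod_cast h1.1
      have e3 : (s' : ℤ) < (k + 1) * r := by exact_mod_cast h2.2.1
      have e4 : (k : ℤ) * r ≤ s' := by exact_mod_cast h2.1
      rw [abs_lt]
      constructor <;> linarith
    have h7 := Int.eq_zero_of_abs_lt_dvd h5 h6
    omega
  have hcard : (F.image f).card = F.card := card_image_of_injOn hinj
  rw [← hcard]
  apply card_near _ (r * (α * (k * r)))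
  · positivity
  · intro c hc
    obtain ⟨s, hs, rfl⟩ := mem_image.1 hc
    obtain ⟨h1, h2, h3⟩ := hF s hs
    have e2 : (k : ℝ) * r ≤ s := by exact_mod_cast h1
    have e1 : (s : ℝ) < (k + 1) * r := by exact_mod_cast h2
    simp only [hf]
    push_cast
    have e : (r : ℝ) * (α * (k * r)) - (r * (round (α * s) : ℝ) - a * ((s : ℝ) - k * r)) =
        r * ((α * s - (round (α * s) : ℝ)) - β * (s - k * r)) := by
      have : (a : ℝ) = r * (a / r) := by field_simp
      rw [hβ]
      field_simp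
      ring
    rw [e, abs_mul, abs_of_pos hr0]
    apply mul_le_mul_of_nonneg_left _ hr0.le
    refine (abs_sub _ _).trans (add_le_add h3 ?_)
    rw [abs_mul]
    have h4 : |(s : ℝ) - k * r| ≤ r := by
      rw [abs_le]
      constructor <;> linarith
    calc |β| * |(s : ℝ) - k * r| ≤ |β| * r := mul_le_mul_of_nonneg_left h4 (abs_nonneg _)
      _ ≤ ε := hα

/-- many integers `s < 4 Q` for which `α s` is near an integer -/
theorem spec (Q M : ℕ) (hQ : 1 ≤ Q) (hM : 1 ≤ M) (T : ℝ) (hT : 0 < T) (α : ℝ) (F : Finset ℕ)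
    (hF : ∀ s ∈ F, s < 4 * Q ∧ |α * s - round (α * s)| ≤ T / M)
    (hbig : 280 * Q * T / M < (F.card : ℝ)) :
    ∃ q : ℚ, q.den ≤ 16 * Q ∧ ∀ s ∈ F, q.den ∣ s ∧ |α - q| * s ≤ T / M := by
  classical
  have hQ0 : (0 : ℝ) < Q := by exact_mod_cast hQ
  have hQ1 : (1 : ℝ) ≤ Q := by exact_mod_cast hQ
  have hM0 : (0 : ℝ) < M := by exact_mod_cast hM
  obtain ⟨q, hq1, hq2⟩ := Real.exists_rat_abs_sub_le_and_den_le α (n := 16 * Q) (by omega)
  set r := q.den with hr
  have hr0 : 0 < r := q.den_pos
  have hrr : (0 : ℝ) < r := by exact_mod_cast hr0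
  have hr1 : (1 : ℝ) ≤ r := by exact_mod_cast hr0
  have hqr : (q : ℝ) = q.num / r := by rw [hr]; exact Rat.cast_def q
  have hcop : IsCoprime q.num (r : ℤ) := by
    rw [Int.isCoprime_iff_gcd_eq_one]
    exact q.reduced
  have hr16 : (r : ℝ) ≤ 16 * Q := by exact_mod_cast hq2
  have hqb : |α - q| * r ≤ 1 / (16 * Q) := by
    have h1 : |α - q| * r ≤ 1 / ((((16 * Q : ℕ) : ℝ) + 1) * r) * r := mul_le_mul_of_nonneg_right hq1 hrr.le
    refine h1.trans ?_
    have h2 : 1 / ((((16 * Q : ℕ) : ℝ) + 1) * r) * r = 1 / (((16 * Q : ℕ) : ℝ) + 1) := by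
      field_simp
    rw [h2]
    push_cast
    apply one_div_le_one_div_of_le (by positivity)
    linarith
  refine ⟨q, hq2, ?_⟩
  rcases le_or_gt ((r : ℝ) * (4 * T)) M with hcase | hcase
  · -- small denominator
    intro s hs
    obtain ⟨h1, h2⟩ := hF s hs
    have hs4 : (s : ℝ) < 4 * Q := by exact_mod_cast h1
    have h3 : |α - q| * s * r ≤ 1 / 4 := by
      have h5 : |α - q| * r * s ≤ 1 / (16 * Q) * (4 * Q) :=
        mul_le_mul hqb hs4.le (Nat.cast_nonneg _) (by positivity)
      have h6 : 1 / (16 * (Q : ℝ)) * (4 * Q) = 1 / 4 := by field_simp; norm_num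
      rw [h6] at h5
      calc |α - q| * s * r = |α - q| * r * s := by ring
        _ ≤ _ := h5
    have h4 : T / M * r ≤ 1 / 4 := by
      rw [div_mul_eq_mul_div, div_le_iff₀ hM0]
      linarith
    have h5 : |(q.num : ℝ) * s - r * round (α * s)| < 1 := by
      have e : (q.num : ℝ) * s - r * round (α * s) = r * ((α * s - round (α * s)) - (α - q) * s) := by
        rw [hqr]
        field_simp
        ring
      rw [e, abs_mul, abs_of_pos hrr]
      have h6 : |(α * s - round (α * s)) - (α - q) * s| ≤ T / M + |α - q| * s := by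
        refine (abs_sub _ _).trans (add_le_add h2 ?_)
        rw [abs_mul, abs_of_nonneg (Nat.cast_nonneg (α := ℝ) s)]
      calc (r : ℝ) * |(α * s - round (α * s)) - (α - q) * s| ≤ r * (T / M + |α - q| * s) :=
            mul_le_mul_of_nonneg_left h6 hrr.le
        _ = T / M * r + |α - q| * s * r := by ring
        _ < 1 := by linarith
    have h6 : q.num * s - r * round (α * s) = 0 := by
      have h7 : |q.num * (s : ℤ) - r * round (α * s)| < 1 := by exact_mod_cast h5
      exact Int.abs_lt_one_iff.1 h7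
    have h7 : (r : ℤ) ∣ q.num * s := ⟨round (α * s), by linarith⟩
    have h8 : (r : ℤ) ∣ (s : ℤ) := hcop.symm.dvd_of_dvd_mul_left h7
    refine ⟨by exact_mod_cast h8, ?_⟩
    have h9 : (q : ℝ) * s = round (α * s) := by
      have h10 : (q.num : ℝ) * s = r * round (α * s) := by
        have : (q.num : ℤ) * s = r * round (α * s) := by linarith
        exact_mod_cast this
      rw [hqr, div_mul_eq_mul_div, div_eq_iff hrr.ne', h10]
      ring
    have h10 : (α - q) * s = α * s - round (α * s) := by rw [sub_mul, h9]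
    calc |α - q| * s = |(α - q) * s| := by rw [abs_mul, abs_of_nonneg (Nat.cast_nonneg (α := ℝ) s)]
      _ = |α * s - round (α * s)| := by rw [h10]
      _ ≤ T / M := h2
  · -- large denominator: counting
    exfalso
    have hcard : F.card = ∑ k ∈ range (4 * Q / r + 1), (F.filter (fun s => s / r = k)).card := by
      apply card_eq_sum_card_fiberwise
      intro s hs
      rw [mem_coe, mem_range, Nat.lt_succ_iff]
      exact Nat.div_le_div_right (hF s (mem_coe.1 hs)).1.le
    have hb : ∀ k ∈ range (4 * Q / r + 1), ((F.filter (fun s => s / r = k)).card : ℝ) ≤ 14 * (r * T / M) := by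
      intro k _
      have h1 := block r hr0 q.num hcop α (T / M) (1 / (16 * Q)) (by rw [← hqr]; exact hqb) (by positivity)
        (by positivity) k (F.filter (fun s => s / r = k)) (by
          intro s hs
          rw [mem_filter] at hs
          refine ⟨?_, ?_, (hF s hs.1).2⟩
          · rw [← hs.2]; exact Nat.div_mul_le_self _ _
          · rw [← hs.2]; exact Nat.lt_mul_of_div_lt (Nat.lt_succ_self _) hr0)
      refine h1.trans ?_
      have h2 : (r : ℝ) * (1 / (16 * Q)) ≤ 1 := by
        rw [mul_one_div, div_le_one (by positivity)]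
        exact hr16
      have h3 : 1 ≤ 4 * (r * T / M) := by
        rw [mul_div_assoc', le_div_iff₀ hM0]
        linarith
      have h4 : (r : ℝ) * (T / M) = r * T / M := by ring
      rw [mul_add, h4]
      linarith
    have h1 : (F.card : ℝ) ≤ (4 * Q / r + 1 : ℝ) * (14 * (r * T / M)) := by
      rw [hcard]
      push_cast
      refine (sum_le_sum hb).trans ?_
      rw [sum_const, card_range, nsmul_eq_mul]
      apply mul_le_mul_of_nonneg_right _ (by positivity)
      push_cast
      have : ((4 * Q / r : ℕ) : ℝ) ≤ ((4 * Q : ℕ) : ℝ) / r := Nat.cast_div_le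
      push_cast at this
      linarith
    have h2 : (4 * Q / r + 1 : ℝ) * (14 * (r * T / M)) = 56 * Q * T / M + 14 * r * T / M := by
      field_simp
      ring
    have h3 : 14 * (r : ℝ) * T / M ≤ 224 * Q * T / M := by
      apply div_le_div_of_nonneg_right _ hM0.le
      apply mul_le_mul_of_nonneg_right _ hT.le
      linarith
    have h4 : 56 * (Q : ℝ) * T / M + 224 * Q * T / M = 280 * Q * T / M := by ring
    linarith

end Pool.Agent.Y883
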